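import Mathlib

/-!
# Simple roots persist (helper805)
-/

set_option autoImplicit false

namespace Run7.h805

open Polynomial Topology Filter

variable {k : Type*} [NontriviallyNormedField k] [CompleteSpace k] {σ : Type*} [Fintype σ]

/-- a simple root of a polynomial whose coefficients are polynomials in parameters persists
under small changes of the parameters -/
theorem root_persist (f : (MvPolynomial σ k)[X]) (y₀ : σ → k) (x₀ : k)
    (h0 : (f.map (MvPolynomial.eval y₀)).eval x₀ = 0)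
    (h1 : (f.map (MvPolynomial.eval y₀)).derivative.eval x₀ ≠ 0) (W : Set k) (hW : W ∈ 𝓝 x₀) :
    ∀ᶠ y in 𝓝 y₀, ∃ x ∈ W, (f.map (MvPolynomial.eval y)).eval x = 0 := by
  let F : (σ → k) × k → k := fun z => (f.map (MvPolynomial.eval z.1)).eval z.2
  have hFan : AnalyticAt k F (y₀, x₀) := by
    have e : F = fun z => ∑ i ∈ Finset.range (f.natDegree + 1),
        MvPolynomial.eval z.1 (f.coeff i) * z.2 ^ i := by
      funext z
      simp only [F]
      rw [eval_map, eval₂_eq_sum_range]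
    rw [e]
    refine Finset.analyticAt_fun_sum _ fun i _ => ?_
    refine AnalyticAt.fun_mul ?_ (analyticAt_snd.fun_pow i)
    have h2 := AnalyticAt.aeval_mvPolynomial (𝕜 := k) (A := k) (B := k)
      (f := fun (z : (σ → k) × k) (i : σ) => z.1 i) (z := (y₀, x₀)) (fun i => by
        exact ((ContinuousLinearMap.proj (R := k) (φ := fun _ : σ => k) i).comp
          (ContinuousLinearMap.fst k (σ → k) k)).analyticAt _) (f.coeff i)
    simpa [MvPolynomial.coe_aeval_eq_eval] using h2
  have hF := hFan.hasStrictFDerivAt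
  set F' := fderiv k F (y₀, x₀) with hF'
  have hd : F' (0, 1) ≠ 0 := by
    have e1 : HasDerivAt (fun x : k => F (y₀, x)) (F' (0, 1)) x₀ := by
      have h3 : HasDerivAt (fun x : k => ((y₀, x) : (σ → k) × k)) ((0, 1) : (σ → k) × k) x₀ :=
        (hasDerivAt_const x₀ y₀).prodMk (hasDerivAt_id x₀)
      exact hF.hasFDerivAt.comp_hasDerivAt x₀ h3
    have e2 : HasDerivAt (fun x : k => F (y₀, x))
        ((f.map (MvPolynomial.eval y₀)).derivative.eval x₀) x₀ :=
      (f.map (MvPolynomial.eval y₀)).hasDerivAt x₀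
    rw [e1.unique e2]
    exact h1
  have hG : HasStrictFDerivAt (fun z : (σ → k) × k => (z.1, F z))
      ((ContinuousLinearMap.fst k (σ → k) k).prod F') (y₀, x₀) :=
    hasStrictFDerivAt_fst.prodMk hF
  have hsurj : ((ContinuousLinearMap.fst k (σ → k) k).prod F').range = ⊤ := by
    rw [LinearMap.range_eq_top]
    rintro ⟨u, w⟩
    refine ⟨(u, (w - F' (u, 0)) / F' (0, 1)), ?_⟩
    have e3 : ((u, (w - F' (u, 0)) / F' (0, 1)) : (σ → k) × k) =
        (u, 0) + ((w - F' (u, 0)) / F' (0, 1)) • ((0, 1) : (σ → k) × k) := by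
      ext <;> simp
    have e4 : F' (u, (w - F' (u, 0)) / F' (0, 1)) = w := by
      rw [e3, map_add, map_smul, smul_eq_mul, div_mul_cancel₀ _ hd]
      ring
    refine Prod.ext rfl ?_
    exact e4
  have hmap := hG.map_nhds_eq_of_surj hsurj
  have hFz : F (y₀, x₀) = 0 := h0
  have hW' : (Set.univ ×ˢ W : Set ((σ → k) × k)) ∈ 𝓝 (y₀, x₀) := prod_mem_nhds univ_mem hW
  have h5 := image_mem_map (m := fun z : (σ → k) × k => (z.1, F z)) hW'
  rw [hmap] at h5
  have h6 : Tendsto (fun y : σ → k => (y, (0 : k))) (𝓝 y₀) (𝓝 (y₀, F (y₀, x₀))) := by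
    rw [hFz]
    exact (Continuous.prodMk continuous_id continuous_const).tendsto' _ _ rfl
  filter_upwards [h6 h5] with y hy
  obtain ⟨⟨y', x⟩, hx, he⟩ := hy
  have e5 : y' = y := congrArg Prod.fst he
  have e6 : F (y', x) = 0 := congrArg Prod.snd he
  subst e5
  exact ⟨x, hx.2, e6⟩

theorem continuous_ev (g : (MvPolynomial σ k)[X]) :
    Continuous fun z : (σ → k) × k => (g.map (MvPolynomial.eval z.1)).eval z.2 := by
  have e : (fun z : (σ → k) × k => (g.map (MvPolynomial.eval z.1)).eval z.2) =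
      fun z => ∑ i ∈ Finset.range (g.natDegree + 1),
      MvPolynomial.eval z.1 (g.coeff i) * z.2 ^ i := by
    funext z
    rw [eval_map, eval₂_eq_sum_range]
  rw [e]
  refine continuous_finsetSum _ fun i _ => ?_
  exact ((MvPolynomial.continuous_eval _).comp continuous_fst).mul (continuous_snd.pow i)

/-- a simple root persists, and another polynomial stays nonzero at it -/
theorem root_persist_ne (f g : (MvPolynomial σ k)[X]) (y₀ : σ → k) (x₀ : k)
    (h0 : (f.map (MvPolynomial.eval y₀)).eval x₀ = 0)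
    (h1 : (f.map (MvPolynomial.eval y₀)).derivative.eval x₀ ≠ 0)
    (h2 : (g.map (MvPolynomial.eval y₀)).eval x₀ ≠ 0) (W : Set k) (hW : W ∈ 𝓝 x₀) :
    ∀ᶠ y in 𝓝 y₀, ∃ x ∈ W, (f.map (MvPolynomial.eval y)).eval x = 0 ∧
      (g.map (MvPolynomial.eval y)).eval x ≠ 0 := by
  have hnear : ∀ᶠ z in 𝓝 (y₀, x₀), (g.map (MvPolynomial.eval z.1)).eval z.2 ≠ 0 :=
    (continuous_ev g).continuousAt.eventually_ne h2
  rw [nhds_prod_eq] at hnear
  obtain ⟨U, hU, W', hW', hUW⟩ := Filter.mem_prod_iff.1 hnear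
  filter_upwards [root_persist f y₀ x₀ h0 h1 (W ∩ W') (inter_mem hW hW'), hU] with y hy hyU
  obtain ⟨x, hx, hfx⟩ := hy
  exact ⟨x, hx.1, hfx, hUW (Set.mk_mem_prod hyU hx.2)⟩

end Run7.h805
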