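import Mathlib

/-!
# Extending homomorphisms to finitely generated subalgebras of the fraction field (helper805)
-/

set_option autoImplicit false

namespace Run7.h805

open Polynomial

/-- every finitely generated `ℚ`-subalgebra of `E` has a homomorphism to `k` -/
def LocPt (E k : Type) [Field E] [Algebra ℚ E] [Field k] [Algebra ℚ k] : Prop :=
  ∀ s : Finset E, Nonempty (Algebra.adjoin ℚ (s : Set E) →ₐ[ℚ] k)

/-- extension of a homomorphism to elements with a given denominator -/
theorem exists_hom {A E k : Type*} [CommRing A] [IsDomain A] [Algebra ℚ A] [Field E] [Algebra ℚ E]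
    [Algebra A E] [IsScalarTower ℚ A E] (hinj : Function.Injective (algebraMap A E)) [Field k]
    [Algebra ℚ k] (ψ : A →ₐ[ℚ] k) (b : A) (hb : ψ b ≠ 0) (s : Set E)
    (hs : ∀ e ∈ s, ∃ a : A, algebraMap A E a = algebraMap A E b * e) :
    ∃ φ : Algebra.adjoin ℚ s →ₐ[ℚ] k, ∀ (e : Algebra.adjoin ℚ s) (a : A),
      (e : E) = algebraMap A E a → φ e = ψ a := by
  classical
  have hb0 : b ≠ 0 := fun h => hb (by rw [h, map_zero])
  have hbE : algebraMap A E b ≠ 0 := fun h => hb0 (hinj (by rw [h, map_zero]))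
  let T := Localization.Away b
  let j : T →ₐ[ℚ] E := IsLocalization.Away.liftAlgHom b (f := IsScalarTower.toAlgHom ℚ A E)
    (IsUnit.mk0 _ hbE)
  have hj : ∀ a : A, j (algebraMap A T a) = algebraMap A E a := fun a =>
    IsLocalization.Away.lift_eq b (g := (IsScalarTower.toAlgHom ℚ A E).toRingHom) (IsUnit.mk0 _ hbE) a
  let ψT : T →ₐ[ℚ] k := IsLocalization.Away.liftAlgHom b (f := ψ) (IsUnit.mk0 _ hb)
  have hψT : ∀ a : A, ψT (algebraMap A T a) = ψ a := fun a =>
    IsLocalization.Away.lift_eq b (g := ψ.toRingHom) (IsUnit.mk0 _ hb) a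
  have hjinj : Function.Injective j := by
    rw [injective_iff_map_eq_zero]
    intro t ht
    obtain ⟨⟨a, ⟨_, n, rfl⟩⟩, ha⟩ := IsLocalization.surj (Submonoid.powers b) t
    have h1 : algebraMap A E a = 0 := by
      rw [← hj, ← ha, map_mul, ht, zero_mul]
    have h2 : a = 0 := hinj (by rw [h1, map_zero])
    rw [h2, map_zero] at ha
    exact (((IsLocalization.map_units T (⟨_, n, rfl⟩ : Submonoid.powers b)).mul_left_eq_zero).1 ha)
  have hle : Algebra.adjoin ℚ s ≤ j.range := by
    rw [Algebra.adjoin_le_iff]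
    intro e he
    obtain ⟨a, ha⟩ := hs e he
    refine ⟨IsLocalization.mk' T a (⟨b, 1, pow_one b⟩ : Submonoid.powers b), ?_⟩
    have h3 : j (IsLocalization.mk' T a (⟨b, 1, pow_one b⟩ : Submonoid.powers b)) *
        algebraMap A E b = algebraMap A E a := by
      rw [← hj b, ← map_mul, IsLocalization.mk'_spec T a (⟨b, 1, pow_one b⟩ : Submonoid.powers b), hj]
    rw [ha, mul_comm] at h3
    exact mul_left_cancel₀ hbE h3
  let e' := AlgEquiv.ofInjective j hjinj
  refine ⟨(ψT.comp e'.symm.toAlgHom).comp (Subalgebra.inclusion hle), ?_⟩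
  intro e a hea
  have h4 : e' (algebraMap A T a) = Subalgebra.inclusion hle e := by
    apply Subtype.ext
    change j (algebraMap A T a) = (e : E)
    rw [hj, hea]
  change ψT (e'.symm (Subalgebra.inclusion hle e)) = ψ a
  rw [← h4, AlgEquiv.symm_apply_apply, hψT]

end Run7.h805
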