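import Mathlib
import Pool.Agent.Run7.h805.RP

/-!
# Zariski density of local points near a smooth point (helper805)
-/

set_option autoImplicit false

namespace Run7.h805

open Polynomial Topology Filter

theorem vanish_near {k₀ k : Type*} [Field k₀] [NontriviallyNormedField k] [Algebra k₀ k]
    {σ : Type*} [Fintype σ] {c : MvPolynomial σ k₀} (hc : c ≠ 0) (y₀ : σ → k) :
    ¬ ∀ᶠ y in 𝓝 y₀, MvPolynomial.aeval y c = 0 := by
  classical
  intro h
  apply hc
  have h1 : MvPolynomial.map (algebraMap k₀ k) c = 0 := by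
    obtain ⟨ε, hε, hh⟩ := Metric.eventually_nhds_iff_ball.1 h
    refine MvPolynomial.funext_set (fun i => Metric.ball (y₀ i) ε) (fun i => ?_) ?_
    · exact infinite_of_mem_nhds (y₀ i) (Metric.ball_mem_nhds _ hε)
    · intro x hx
      rw [map_zero, MvPolynomial.eval_map, ← MvPolynomial.aeval_def]
      apply hh
      rw [ball_pi _ hε]
      exact hx
  exact MvPolynomial.map_injective _ (algebraMap k₀ k).injective (by rw [h1, map_zero])

universe u v w

theorem local_density {k₀ : Type u} {k : Type v} {S : Type w} [Field k₀] [NontriviallyNormedField k]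
    [CompleteSpace k] [Algebra k₀ k] [CommRing S] [IsDomain S] [Algebra k₀ S]
    [Algebra.FinitePresentation k₀ S] [Algebra.FormallySmooth k₀ S]
    (φ : S →ₐ[k₀] k) {g : S} (hg : g ≠ 0) : ∃ ψ : S →ₐ[k₀] k, ψ g ≠ 0 := by
  classical
  let p : Ideal S := RingHom.ker φ
  have : p.IsPrime := RingHom.ker_isPrime _
  have : Algebra.IsSmoothAt k₀ p := inferInstance
  obtain ⟨f, hf, n, alg, tow, std⟩ := Algebra.IsSmoothAt.exists_isStandardEtale_mvPolynomial
    (R := k₀) (S := S) (p := p)
  have hf0 : f ≠ 0 := fun h => hf (by rw [h]; exact p.zero_mem)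
  have hφf : φ f ≠ 0 := fun h => hf h
  let R := MvPolynomial (Fin n) k₀
  let T := Localization.Away f
  have hdomT : IsDomain T := IsLocalization.isDomain_localization
    (powers_le_nonZeroDivisors_of_noZeroDivisors hf0)
  let P : StandardEtalePresentation R T := Classical.choice std.nonempty_standardEtalePresentation
  -- the given point
  let φT : T →ₐ[k₀] k := IsLocalization.Away.liftAlgHom f (f := φ) (IsUnit.mk0 _ hφf)
  have hφT : ∀ s : S, φT (algebraMap S T s) = φ s := fun s =>
    IsLocalization.Away.lift_eq f (g := φ.toRingHom) (IsUnit.mk0 _ hφf) s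
  let y₀ : Fin n → k := fun i => φT (algebraMap R T (MvPolynomial.X i))
  let x₀ : k := φT P.x
  -- evaluation at `y`
  let ev : (Fin n → k) → (R →+* k) := fun y => (MvPolynomial.aeval y : R →ₐ[k₀] k).toRingHom
  have hev : ∀ (y : Fin n → k) (q : R[X]) (x : k), ((q.map (MvPolynomial.map (algebraMap k₀ k))).map
      (MvPolynomial.eval y)).eval x = eval₂ (ev y) x q := by
    intro y q x
    rw [Polynomial.map_map, eval_map]
    congr 1
    ext c
    · simp [ev]
    · simp [ev]
  have hev0 : ev y₀ = φT.toRingHom.comp (algebraMap R T) := by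
    ext c
    · simp only [ev, y₀, RingHom.comp_apply]
      change MvPolynomial.aeval _ (MvPolynomial.C c) = φT (algebraMap R T (MvPolynomial.C c))
      rw [← MvPolynomial.algebraMap_eq, ← IsScalarTower.algebraMap_apply k₀ R T, AlgHom.commutes,
        AlgHom.commutes]
    · simp only [ev, y₀, RingHom.comp_apply]
      change MvPolynomial.aeval _ (MvPolynomial.X _) = _
      rw [MvPolynomial.aeval_X]
      rfl
  have hev0' : ∀ q : R[X], eval₂ (ev y₀) x₀ q = φT (aeval P.x q) := by
    intro q
    rw [hev0, aeval_def]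
    exact (Polynomial.hom_eval₂ q (algebraMap R T) φT.toRingHom P.x).symm
  have hf1 : ((P.f.map (MvPolynomial.map (algebraMap k₀ k))).map (MvPolynomial.eval y₀)).eval x₀ = 0 := by
    rw [hev, hev0', P.hasMap.1, map_zero]
  have hf2 : ((P.f.map (MvPolynomial.map (algebraMap k₀ k))).map
      (MvPolynomial.eval y₀)).derivative.eval x₀ ≠ 0 := by
    rw [derivative_map, derivative_map, hev, hev0']
    exact (P.hasMap.isUnit_derivative_f.map φT).ne_zero
  have hg1 : ((P.g.map (MvPolynomial.map (algebraMap k₀ k))).map (MvPolynomial.eval y₀)).eval x₀ ≠ 0 := by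
    rw [hev, hev0']
    exact (P.hasMap.2.map φT).ne_zero
  -- nearby points
  have hroot := root_persist_ne (P.f.map (MvPolynomial.map (algebraMap k₀ k)))
    (P.g.map (MvPolynomial.map (algebraMap k₀ k))) y₀ x₀ hf1 hf2 hg1 Set.univ Filter.univ_mem
  -- the polynomial in the parameters
  have hgT : algebraMap S T g ≠ 0 := fun h => hg
    ((IsLocalization.injective T (powers_le_nonZeroDivisors_of_noZeroDivisors hf0)) (by
      rw [h, map_zero]))
  have hint : IsIntegral R P.x := ⟨P.f, P.monic_f, P.hasMap.1⟩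
  have halg : IsAlgebraic R (algebraMap S T g) := by
    obtain ⟨q, m, hq⟩ := P.exists_mul_aeval_x_g_pow_eq_aeval_x (algebraMap S T g)
    have h1 : IsIntegral R (aeval P.x P.g ^ m) :=
      (IsIntegral.of_mem_of_fg (Algebra.adjoin R {P.x}) hint.fg_adjoin_singleton _
        (aeval_mem_adjoin_singleton R P.x)).pow m
    have h2 : IsIntegral R (aeval P.x q) :=
      (IsIntegral.of_mem_of_fg (Algebra.adjoin R {P.x}) hint.fg_adjoin_singleton _
        (aeval_mem_adjoin_singleton R P.x))
    refine IsAlgebraic.of_mul (y := aeval P.x P.g ^ m) (mem_nonZeroDivisors_of_ne_zero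
      (pow_ne_zero _ P.hasMap.2.ne_zero)) h1.isAlgebraic ?_
    rw [mul_comm, hq]
    exact h2.isAlgebraic
  obtain ⟨c, hc0, hc⟩ := halg.exists_nonzero_dvd (mem_nonZeroDivisors_of_ne_zero hgT)
  by_contra hcon
  push Not at hcon
  refine vanish_near hc0 y₀ ?_
  filter_upwards [hroot] with y hy
  obtain ⟨x, -, hx, hgx⟩ := hy
  rw [hev] at hx hgx
  let : Algebra R k := (ev y).toAlgebra
  have hmap : P.P.HasMap x := ⟨hx, IsUnit.mk0 _ hgx⟩
  let θ : T →ₐ[R] k := (P.P.lift x hmap).comp P.equivRing.toAlgHom
  let ψ : S →ₐ[k₀] k :=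
    { (θ.toRingHom.comp (algebraMap S T)) with
      commutes' := by
        intro a
        change θ (algebraMap S T (algebraMap k₀ S a)) = _
        rw [← IsScalarTower.algebraMap_apply k₀ S T, IsScalarTower.algebraMap_apply k₀ R T,
          AlgHom.commutes]
        change MvPolynomial.aeval y (algebraMap k₀ R a) = _
        rw [AlgHom.commutes] }
  have h3 : θ (algebraMap S T g) = 0 := hcon ψ
  obtain ⟨d, hd⟩ := hc
  have h4 : θ (algebraMap R T c) = 0 := by rw [hd, map_mul, h3, zero_mul]
  rw [AlgHom.commutes] at h4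
  exact h4

end Run7.h805
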