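import Mathlib

/-!
# Weak approximation for the rational numbers, vector form (helper805)

The first three lemmas are copied from `Pool/Agent/N546/PW` (starting tree).
-/

set_option autoImplicit false
set_option linter.all false

namespace Run7.h805

open Finset Topology

instance fact_primes (p : Nat.Primes) : Fact (Nat.Prime (p : ℕ)) := ⟨p.2⟩

/-- integral approximation -/
lemma approxInt (p : ℕ) [Fact p.Prime] (x : ℚ_[p]) (hx : ‖x‖ ≤ 1) (N : ℕ) :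
    ∃ a : ℤ, ‖(a : ℚ_[p]) - x‖ ≤ (p : ℝ) ^ (-(N : ℤ)) := by
  refine ⟨(PadicInt.appr ⟨x, hx⟩ N : ℕ), ?_⟩
  have h1 := (PadicInt.norm_le_pow_iff_mem_span_pow _ N).2 (PadicInt.appr_spec N ⟨x, hx⟩)
  rw [norm_sub_rev] at h1
  have h2 : ‖(((PadicInt.appr ⟨x, hx⟩ N : ℕ) : ℤ_[p]) - ⟨x, hx⟩ : ℤ_[p])‖ =
      ‖(((PadicInt.appr ⟨x, hx⟩ N : ℕ) : ℤ) : ℚ_[p]) - x‖ := by
    rw [PadicInt.norm_def]
    congr 1
  rw [← h2]
  exact h1

lemma crt (P : ℕ) (N : ℕ → ℕ) {m : ℕ} (a : ℕ → Fin m → ℤ) :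
    ∃ b : Fin m → ℤ, ∀ p : ℕ, p.Prime → p ≤ P → ∀ i, (p : ℤ) ^ N p ∣ b i - a p i := by
  classical
  set t : Finset ℕ := (Icc 1 P).filter Nat.Prime with ht
  have hpp : Set.Pairwise (t : Set ℕ) (Function.onFun Nat.Coprime (fun p => p ^ N p)) := by
    intro p hp q hq hpq
    have hp' := (Finset.mem_filter.1 (Finset.mem_coe.1 hp)).2
    have hq' := (Finset.mem_filter.1 (Finset.mem_coe.1 hq)).2
    exact Nat.Coprime.pow _ _ ((Nat.coprime_primes hp' hq').2 hpq)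
  have hs : ∀ p ∈ t, (fun p => p ^ N p) p ≠ 0 := by
    intro p hp
    exact pow_ne_zero _ (Finset.mem_filter.1 hp).2.ne_zero
  refine ⟨fun i => ((Nat.chineseRemainderOfFinset (fun p => (a p i % (p : ℤ) ^ N p).toNat)
    (fun p => p ^ N p) t hs hpp : ℕ) : ℤ), fun p hp hpP i => ?_⟩
  have hpt : p ∈ t := Finset.mem_filter.2 ⟨Finset.mem_Icc.2 ⟨hp.one_le, hpP⟩, hp⟩
  have h1 := (Nat.chineseRemainderOfFinset (fun p => (a p i % (p : ℤ) ^ N p).toNat)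
    (fun p => p ^ N p) t hs hpp).2 p hpt
  have h2 := (Int.natCast_modEq_iff.2 h1).symm.dvd
  push_cast at h2
  have hpos : (0 : ℤ) < (p : ℤ) ^ N p := by
    have := hp.pos
    positivity
  rw [Int.toNat_of_nonneg (Int.emod_nonneg _ hpos.ne')] at h2
  have h3 : (p : ℤ) ^ N p ∣ a p i % (p : ℤ) ^ N p - a p i := by
    rw [← dvd_neg, neg_sub]
    exact Int.dvd_self_sub_emod
  have h4 := dvd_add h2 h3
  rw [sub_add_sub_cancel] at h4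
  exact h4

lemma norm_of_dvd' {p : ℕ} [Fact p.Prime] {N : ℕ} {z : ℤ} (h : (p : ℤ) ^ N ∣ z) :
    ‖(z : ℚ_[p])‖ ≤ ((p : ℝ) ^ N)⁻¹ := by
  have h1 := (Padic.norm_int_le_pow_iff_dvd (p := p) z N).2 (by exact_mod_cast h)
  rw [zpow_neg, zpow_natCast] at h1
  exact h1

lemma approx_Q (T : Finset Nat.Primes) (x : (p : Nat.Primes) → ℚ_[(p : ℕ)]) (δ : ℝ) (hδ : 0 < δ) :
    ∃ u : ℚ, ∀ p ∈ T, ‖(u : ℚ_[(p : ℕ)]) - x p‖ < δ := by
  classical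
  have h1 : ∀ p : Nat.Primes, ∃ N : ℕ, ‖x p‖ < ((p : ℕ) : ℝ) ^ N := fun p =>
    pow_unbounded_of_one_lt _ (by exact_mod_cast p.2.one_lt)
  choose N hN using h1
  set D : ℤ := ∏ p ∈ T, ((p : ℕ) : ℤ) ^ (N p) with hD
  have hD0 : D ≠ 0 := Finset.prod_ne_zero_iff.2 fun p _ =>
    pow_ne_zero _ (by exact_mod_cast p.2.ne_zero)
  have hDx : ∀ p ∈ T, ‖(D : ℚ_[(p : ℕ)]) * x p‖ ≤ 1 := by
    intro p hp
    have h2 : ((p : ℕ) : ℤ) ^ (N p) ∣ D := Finset.dvd_prod_of_mem (fun p : Nat.Primes =>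
      ((p : ℕ) : ℤ) ^ (N p)) hp
    have h3 := norm_of_dvd' (p := (p : ℕ)) h2
    have hpp : (0 : ℝ) < ((p : ℕ) : ℝ) ^ N p := by
      have : (0 : ℝ) < ((p : ℕ) : ℝ) := by exact_mod_cast p.2.pos
      positivity
    rw [norm_mul]
    calc ‖(D : ℚ_[(p : ℕ)])‖ * ‖x p‖ ≤ (((p : ℕ) : ℝ) ^ N p)⁻¹ * ((p : ℕ) : ℝ) ^ N p :=
          mul_le_mul h3 (hN p).le (norm_nonneg _) (by positivity)
      _ = 1 := inv_mul_cancel₀ hpp.ne'
  have hDn : ∀ p : Nat.Primes, 0 < ‖(D : ℚ_[(p : ℕ)])‖ := fun p =>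
    norm_pos_iff.2 (by exact_mod_cast hD0)
  have h2 : ∀ p : Nat.Primes, ∃ K : ℕ, ((((p : ℕ) : ℝ)) ^ K)⁻¹ < δ * ‖(D : ℚ_[(p : ℕ)])‖ := by
    intro p
    have hp1 : (1 : ℝ) < ((p : ℕ) : ℝ) := by exact_mod_cast p.2.one_lt
    obtain ⟨K, hK⟩ := exists_pow_lt_of_lt_one (mul_pos hδ (hDn p)) (inv_lt_one_of_one_lt₀ hp1)
    refine ⟨K, ?_⟩
    rwa [← inv_pow]
  choose K hK using h2
  have h3 : ∀ p : Nat.Primes, ∃ a : ℤ, p ∈ T →
      ‖(a : ℚ_[(p : ℕ)]) - (D : ℚ_[(p : ℕ)]) * x p‖ ≤ ((((p : ℕ) : ℝ)) ^ (K p))⁻¹ := by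
    intro p
    by_cases hp : p ∈ T
    · obtain ⟨a, ha⟩ := approxInt (p : ℕ) _ (hDx p hp) (K p)
      refine ⟨a, fun _ => ?_⟩
      rw [zpow_neg, zpow_natCast] at ha
      exact ha
    · exact ⟨0, fun h => absurd h hp⟩
  choose a ha using h3
  obtain ⟨b, hb⟩ := crt (T.sup (fun p => (p : ℕ)))
    (fun q => if hq : q.Prime then K ⟨q, hq⟩ else 0) (m := 1)
    (fun q _ => if hq : q.Prime then a ⟨q, hq⟩ else 0)
  refine ⟨(b 0 : ℚ) / (D : ℚ), fun p hp => ?_⟩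
  have h4 := hb p p.2 (Finset.le_sup (f := fun p : Nat.Primes => (p : ℕ)) hp) 0
  simp only [dif_pos p.2] at h4
  have h5 := norm_of_dvd' (p := (p : ℕ)) h4
  have hDF : (D : ℚ_[(p : ℕ)]) ≠ 0 := by exact_mod_cast hD0
  have e1 : (((b 0 : ℚ) / (D : ℚ) : ℚ) : ℚ_[(p : ℕ)]) - x p =
      ((((b 0 - a p : ℤ)) : ℚ_[(p : ℕ)]) + ((a p : ℚ_[(p : ℕ)]) - (D : ℚ_[(p : ℕ)]) * x p)) /
        (D : ℚ_[(p : ℕ)]) := by
    push_cast
    field_simp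
    ring
  rw [e1, norm_div, div_lt_iff₀ (hDn p)]
  refine (Padic.nonarchimedean _ _).trans_lt (max_lt ?_ ?_)
  · exact h5.trans_lt (hK p)
  · exact (ha p hp).trans_lt (hK p)


/-- weak approximation for the rational numbers, with the real place -/
lemma approx (T : Finset Nat.Primes) (x : (p : Nat.Primes) → ℚ_[(p : ℕ)]) (y δ : ℝ)
    (hδ : 0 < δ) :
    ∃ u : ℚ, (∀ p ∈ T, ‖(u : ℚ_[(p : ℕ)]) - x p‖ < δ) ∧ |(u : ℝ) - y| < δ := by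
  obtain ⟨u, hu⟩ := approx_Q T x δ hδ
  obtain ⟨n, hn⟩ := exists_pow_lt_of_lt_one hδ (show ((1 : ℝ) / 2) < 1 by norm_num)
  set P : ℕ := ∏ p ∈ T, (p : ℕ) with hP
  have hP0 : 0 < P := Finset.prod_pos fun p _ => p.2.pos
  set M : ℕ := P ^ n with hM
  have hM0 : 0 < M := pow_pos hP0 n
  obtain ⟨k, hk⟩ := exists_nat_gt ((M : ℝ) / δ)
  set b : ℕ := 1 + P * k with hb
  have hb0 : 0 < b := by omega
  have hbM : (M : ℝ) / δ < b := by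
    refine hk.trans_le ?_
    have h1 : k ≤ b := by
      have := Nat.le_mul_of_pos_left k hP0
      omega
    exact_mod_cast h1
  set w : ℝ := (y - u) * b / M with hw
  refine ⟨u + (M : ℚ) * (⌊w⌋ : ℚ) / b, ?_, ?_⟩
  · intro p hp
    have hbn : ‖(b : ℚ_[(p : ℕ)])‖ = 1 := by
      rw [Padic.norm_natCast_eq_one_iff]
      have hdvd : (p : ℕ) ∣ P := Finset.dvd_prod_of_mem _ hp
      have h2 : ¬ (p : ℕ) ∣ b := by
        intro hd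
        have h3 : (p : ℕ) ∣ 1 := (Nat.dvd_add_left (hdvd.mul_right k)).1 hd
        exact p.2.one_lt.ne' (Nat.dvd_one.1 h3)
      exact (p.2.coprime_iff_not_dvd.2 h2)
    have hMn : ‖(M : ℚ_[(p : ℕ)])‖ < δ := by
      have hdvd : (p : ℕ) ∣ P := Finset.dvd_prod_of_mem _ hp
      have h1 : ‖(P : ℚ_[(p : ℕ)])‖ ≤ 1 / 2 := by
        obtain ⟨q, hq⟩ := hdvd
        rw [hq, Nat.cast_mul, norm_mul, Padic.norm_p]
        have h3 : ‖(q : ℚ_[(p : ℕ)])‖ ≤ 1 := by exact_mod_cast Padic.norm_int_le_one (q : ℤ)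
        have h4 : (((p : ℕ) : ℝ))⁻¹ ≤ 1 / 2 := by
          rw [one_div]
          apply inv_anti₀ (by norm_num)
          exact_mod_cast p.2.two_le
        have h5 : (0 : ℝ) ≤ ‖(q : ℚ_[(p : ℕ)])‖ := norm_nonneg _
        nlinarith [show (0 : ℝ) ≤ (((p : ℕ) : ℝ))⁻¹ by positivity]
      rw [hM, Nat.cast_pow, norm_pow]
      exact lt_of_le_of_lt (pow_le_pow_left₀ (norm_nonneg _) h1 n) hn
    have hr : ‖((M : ℚ_[(p : ℕ)]) * ((⌊w⌋ : ℤ) : ℚ_[(p : ℕ)]) / b)‖ < δ := by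
      rw [norm_div, norm_mul, hbn, div_one]
      have h3 : ‖((⌊w⌋ : ℤ) : ℚ_[(p : ℕ)])‖ ≤ 1 := Padic.norm_int_le_one _
      exact lt_of_le_of_lt (mul_le_of_le_one_right (norm_nonneg _) h3) hMn
    have e : (((u + (M : ℚ) * (⌊w⌋ : ℚ) / b : ℚ)) : ℚ_[(p : ℕ)]) - x p =
        ((u : ℚ_[(p : ℕ)]) - x p) + ((M : ℚ_[(p : ℕ)]) * ((⌊w⌋ : ℤ) : ℚ_[(p : ℕ)]) / b) := by
      push_cast
      ring
    rw [e]
    exact lt_of_le_of_lt (Padic.nonarchimedean _ _) (max_lt (hu p hp) hr)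
  · have hbR : (0 : ℝ) < b := by exact_mod_cast hb0
    have hMR : (0 : ℝ) < M := by exact_mod_cast hM0
    have h1 : ((u + (M : ℚ) * (⌊w⌋ : ℚ) / b : ℚ) : ℝ) - y = (⌊w⌋ - w) * (M / b) := by
      rw [hw]
      push_cast
      field_simp
      ring
    rw [h1, abs_mul, abs_of_pos (div_pos hMR hbR)]
    have h2 : |(⌊w⌋ : ℝ) - w| ≤ 1 := by
      rw [abs_sub_comm, abs_of_nonneg (sub_nonneg.2 (Int.floor_le w))]
      linarith [Int.lt_floor_add_one w]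
    have h3 : (M : ℝ) / b < δ := by
      rw [div_lt_iff₀ hbR]
      rw [div_lt_iff₀ hδ] at hbM
      linarith
    calc |(⌊w⌋ : ℝ) - w| * (M / b) ≤ 1 * (M / b) :=
          mul_le_mul_of_nonneg_right h2 (by positivity)
      _ < δ := by rw [one_mul]; exact h3


/-- weak approximation for vectors, with neighbourhoods -/
theorem approx_vec {ι : Type*} [Fintype ι] (T : Finset Nat.Primes)
    (x : (p : Nat.Primes) → ι → ℚ_[(p : ℕ)]) (y : ι → ℝ)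
    (U : (p : Nat.Primes) → Set (ι → ℚ_[(p : ℕ)])) (hU : ∀ p ∈ T, U p ∈ 𝓝 (x p))
    (V : Set (ι → ℝ)) (hV : V ∈ 𝓝 y) :
    ∃ u : ι → ℚ, (∀ p ∈ T, (fun i => (u i : ℚ_[(p : ℕ)])) ∈ U p) ∧ (fun i => (u i : ℝ)) ∈ V := by
  classical
  obtain ⟨ε, hε, hεV⟩ := Metric.mem_nhds_iff.1 hV
  have h1 : ∀ p : Nat.Primes, ∃ δ : ℝ, 0 < δ ∧ (p ∈ T → Metric.ball (x p) δ ⊆ U p) := by
    intro p
    by_cases hp : p ∈ T
    · obtain ⟨δ, hδ, h⟩ := Metric.mem_nhds_iff.1 (hU p hp)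
      exact ⟨δ, hδ, fun _ => h⟩
    · exact ⟨1, one_pos, fun h => absurd h hp⟩
  choose δ hδ hδU using h1
  obtain ⟨η, hη, hηε, hηδ⟩ : ∃ η : ℝ, 0 < η ∧ η ≤ ε ∧ ∀ p ∈ T, η ≤ δ p := by
    rcases T.eq_empty_or_nonempty with hT | hT
    · exact ⟨ε, hε, le_rfl, by simp [hT]⟩
    · refine ⟨min ε (T.inf' hT δ), lt_min hε ?_, min_le_left _ _, ?_⟩
      · rw [Finset.lt_inf'_iff]
        exact fun p _ => hδ p
      · intro p hp
        exact (min_le_right _ _).trans (Finset.inf'_le _ hp)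
  have h2 : ∀ i : ι, ∃ u : ℚ, (∀ p ∈ T, ‖(u : ℚ_[(p : ℕ)]) - x p i‖ < η) ∧ |(u : ℝ) - y i| < η :=
    fun i => approx T (fun p => x p i) (y i) η hη
  choose u hu1 hu2 using h2
  refine ⟨u, ?_, ?_⟩
  · intro p hp
    apply hδU p hp
    rw [Metric.mem_ball, dist_pi_lt_iff (hδ p)]
    intro i
    rw [dist_eq_norm]
    exact (hu1 i p hp).trans_le (hηδ p hp)
  · apply hεV
    rw [Metric.mem_ball, dist_pi_lt_iff hε]
    intro i
    rw [Real.dist_eq]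
    exact (hu2 i).trans_le hηε

end Run7.h805
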