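import Mathlib
import Pool.Agent.Run7.h805.LD
import Pool.Agent.Run7.h805.Frac

/-!
# Points of schemes and homomorphisms from subalgebras of the function field (helper805)
-/

set_option autoImplicit false

namespace Run7.h805

open AlgebraicGeometry CategoryTheory CategoryTheory.Limits

theorem isDomain_sections (X : Scheme.{0}) [IsIntegral X] (V : X.Opens) [Nonempty V] :
    IsDomain Γ(X, V) := inferInstance

/-- a point with values in a field lies in an affine chart -/
theorem exists_chart {X : Scheme.{0}} {k : Type} [Field k]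
    (g : Spec (CommRingCat.of k) ⟶ X) :
    ∃ V : X.Opens, IsAffineOpen V ∧ Nonempty V ∧ Nonempty (Γ(X, V) →+* k) := by
  let pt : Spec (CommRingCat.of k) := (⊥ : PrimeSpectrum k)
  obtain ⟨V, hV, hxV, -⟩ := X.isBasis_affineOpens.exists_subset_of_mem_open
    (show g pt ∈ (⊤ : X.Opens) from trivial) (⊤ : X.Opens).isOpen
  obtain ⟨V, hV', rfl⟩ := hV
  refine ⟨V, hV', ⟨⟨g pt, hxV⟩⟩, ?_⟩
  have hpre : (⊤ : (Spec (CommRingCat.of k)).Opens) ≤ g ⁻¹ᵁ V := by
    intro z _
    have hz : z = pt := by
      have : Subsingleton (PrimeSpectrum k) := inferInstance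
      exact this.elim _ _
    rw [hz]
    exact hxV
  exact ⟨(Scheme.ΓSpecIso (CommRingCat.of k)).hom.hom.comp (g.appLE V ⊤ hpre).hom⟩

/-- a homomorphism from the ring of sections over an affine open set gives a point -/
theorem exists_point {X : Scheme.{0}} {k : Type} [Field k] {V : X.Opens} (hV : IsAffineOpen V)
    (ψ : Γ(X, V) →+* k) : Nonempty (Spec (CommRingCat.of k) ⟶ X) :=
  ⟨Spec.map (CommRingCat.ofHom ψ) ≫ hV.fromSpec⟩

/-- morphisms to the spectrum of `ℚ` from the spectrum of a field are unique -/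
theorem hom_unique {k : Type} [Field k] [Algebra ℚ k]
    (a b : Spec (CommRingCat.of k) ⟶ Spec (CommRingCat.of ℚ)) : a = b := by
  obtain ⟨a', rfl⟩ := Spec.map_surjective a
  obtain ⟨b', rfl⟩ := Spec.map_surjective b
  congr 1
  ext1
  exact RingHom.ext_rat _ _

section

variable {X : Scheme.{0}} (f : X ⟶ Spec (CommRingCat.of ℚ)) {V : X.Opens} (hV : IsAffineOpen V)

/-- the homomorphism from `ℚ` to the sections -/
noncomputable def ratHom (V : X.Opens) : ℚ →+* Γ(X, V) :=
  (f.appLE ⊤ V le_top).hom.comp (Scheme.ΓSpecIso (CommRingCat.of ℚ)).inv.hom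

include hV in
theorem ratHom_smooth [Smooth f] : (ratHom f V).Smooth := by
  have h1 : (f.appLE ⊤ V le_top).hom.Smooth := f.smooth_appLE (isAffineOpen_top _) hV le_top
  refine RingHom.Smooth.comp ?_ h1
  exact RingHom.Smooth.of_bijective
    (ConcreteCategory.bijective_of_isIso (Scheme.ΓSpecIso (CommRingCat.of ℚ)).inv)

include hV in
theorem ratHom_finiteType [LocallyOfFiniteType f] : (ratHom f V).FiniteType := by
  have h1 : (f.appLE ⊤ V le_top).hom.FiniteType :=
    LocallyOfFiniteType.finiteType_appLE f (isAffineOpen_top _) hV le_top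
  refine RingHom.FiniteType.comp h1 ?_
  exact RingHom.FiniteType.of_surjective _
    (ConcreteCategory.bijective_of_isIso (Scheme.ΓSpecIso (CommRingCat.of ℚ)).inv).2

end

/-- fractions in a field isomorphic to the function field -/
theorem exists_frac {X : Scheme.{0}} [IsIntegral X] {E : Type} [Field E]
    (e : X.functionField ≃+* E) {V : X.Opens} (hV : IsAffineOpen V) [Nonempty V] (x : E) :
    ∃ a b : Γ(X, V), b ≠ 0 ∧ e (X.germToFunctionField V a) = e (X.germToFunctionField V b) * x := by
  have := functionField_isFractionRing_of_isAffineOpen X V hV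
  obtain ⟨a, b, hb, h⟩ := IsFractionRing.div_surjective (A := Γ(X, V)) (e.symm x)
  have hb0 : b ≠ 0 := nonZeroDivisors.ne_zero hb
  have hb1 : algebraMap Γ(X, V) X.functionField b ≠ 0 := fun h => hb0
    ((IsFractionRing.injective Γ(X, V) X.functionField) (by rw [h, map_zero]))
  refine ⟨a, b, hb0, ?_⟩
  have h2 : algebraMap Γ(X, V) X.functionField a =
      algebraMap Γ(X, V) X.functionField b * e.symm x := by
    rw [← h, mul_div_cancel₀ _ hb1]
  have h3 := congrArg e h2
  rw [map_mul, RingEquiv.apply_symm_apply] at h3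
  exact h3

/-- the local points of a smooth integral scheme over `ℚ` give local points of its function field -/
theorem locPt_of_point {X : Scheme.{0}} (f : X ⟶ Spec (CommRingCat.of ℚ)) [Smooth f]
    [IsIntegral X] {E : Type} [Field E] [Algebra ℚ E] (e : X.functionField ≃+* E)
    {k : Type} [NontriviallyNormedField k] [CompleteSpace k] [Algebra ℚ k]
    (g : Spec (CommRingCat.of k) ⟶ X) : LocPt E k := by
  classical
  obtain ⟨V, hV, hne, ⟨φ⟩⟩ := exists_chart g
  let A := Γ(X, V)
  let _ : Algebra ℚ A := (ratHom f V).toAlgebra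
  have hsm : Algebra.Smooth ℚ A := (ratHom_smooth f hV).toAlgebra
  have hdom : IsDomain A := inferInstance
  let _ : Algebra A E := (e.toRingHom.comp (X.germToFunctionField V).hom).toAlgebra
  have hinj : Function.Injective (algebraMap A E) :=
    e.injective.comp (X.germToFunctionField_injective V)
  have tow : IsScalarTower ℚ A E := IsScalarTower.of_algebraMap_eq' (RingHom.ext_rat _ _)
  intro s
  choose a b hb0 hab using exists_frac e hV
  have hB0 : (∏ x ∈ s, b x : A) ≠ 0 := Finset.prod_ne_zero_iff.2 fun x _ => hb0 x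
  obtain ⟨ψ, hψ⟩ := local_density (k₀ := ℚ) (RingHom.toRatAlgHom φ) hB0
  obtain ⟨θ, -⟩ := exists_hom (A := A) (E := E) (k := k) hinj ψ (∏ x ∈ s, b x) hψ (s : Set E) (by
    intro x hx
    refine ⟨(∏ x' ∈ s.erase x, b x') * a x, ?_⟩
    have h1 : algebraMap A E (a x) = algebraMap A E (b x) * x := hab x
    rw [map_mul, h1, ← mul_assoc, ← map_mul, Finset.prod_erase_mul s b hx])
  exact ⟨θ⟩

/-- points from homomorphisms of finitely generated subalgebras of the function field -/
theorem point_of_locPt {X : Scheme.{0}} (f : X ⟶ Spec (CommRingCat.of ℚ)) [LocallyOfFiniteType f]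
    [IsIntegral X] {E : Type} [Field E] [Algebra ℚ E] (e : X.functionField →+* E)
    {k : Type} [Field k] [Algebra ℚ k] (h : LocPt E k) :
    ∃ g : Spec (CommRingCat.of k) ⟶ X, g ≫ f = Spec.map (CommRingCat.ofHom (algebraMap ℚ k)) := by
  classical
  obtain ⟨x₀⟩ : Nonempty X := inferInstance
  obtain ⟨V, hV, hxV, -⟩ := X.isBasis_affineOpens.exists_subset_of_mem_open
    (show x₀ ∈ (⊤ : X.Opens) from trivial) (⊤ : X.Opens).isOpen
  obtain ⟨V, hV', rfl⟩ := hV
  have hne : Nonempty V := ⟨⟨x₀, hxV⟩⟩
  let A := Γ(X, V)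
  let _ : Algebra ℚ A := (ratHom f V).toAlgebra
  have hft : Algebra.FiniteType ℚ A := ratHom_finiteType f hV'
  let _ : Algebra A E := (e.comp (X.germToFunctionField V).hom).toAlgebra
  have tow : IsScalarTower ℚ A E := IsScalarTower.of_algebraMap_eq' (RingHom.ext_rat _ _)
  obtain ⟨s, hs⟩ := hft.out
  obtain ⟨φ⟩ := h (s.image (algebraMap A E))
  have hmem : ∀ a : A, algebraMap A E a ∈
      Algebra.adjoin ℚ ((s.image (algebraMap A E) : Finset E) : Set E) := by
    intro a
    have h1 : (IsScalarTower.toAlgHom ℚ A E) a ∈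
        (Algebra.adjoin ℚ (s : Set A)).map (IsScalarTower.toAlgHom ℚ A E) :=
      ⟨a, by rw [hs]; trivial, rfl⟩
    rw [AlgHom.map_adjoin] at h1
    rw [Finset.coe_image]
    exact h1
  let ψ : A →+* k := φ.toRingHom.comp ((algebraMap A E).codRestrict
    (Algebra.adjoin ℚ ((s.image (algebraMap A E) : Finset E) : Set E)) hmem)
  obtain ⟨g⟩ := exists_point hV' ψ
  exact ⟨g, hom_unique _ _⟩

end Run7.h805
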