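import Mathlib

/-!
# Homomorphisms from an invariant extension (helper805)
-/

set_option autoImplicit false
set_option linter.unusedSectionVars false

namespace Run7.h805

open Polynomial

section

variable {R C Ω G : Type*} [CommRing R] [CommRing C] [Algebra R C] [Group G] [Finite G]
  [MulSemiringAction G C] [Algebra.IsInvariant R C G] [Field Ω] [Algebra ℚ C] [Algebra ℚ Ω]

/-- values at one element are conjugate -/
theorem exists_smul_one (f₁ f₂ : C →+* Ω)
    (h : ∀ r : R, f₁ (algebraMap R C r) = f₂ (algebraMap R C r)) (c : C) :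
    ∃ g : G, f₂ c = f₁ (g • c) := by
  classical
  cases nonempty_fintype G
  obtain ⟨P, hP⟩ := (Polynomial.mem_lifts _).1 (Algebra.IsInvariant.charpoly_mem_lifts R C G c)
  have h1 : (MulSemiringAction.charpoly G c).map f₁ = (MulSemiringAction.charpoly G c).map f₂ := by
    rw [← hP, Polynomial.map_map, Polynomial.map_map]
    congr 1
    exact RingHom.ext h
  have h2 : ((MulSemiringAction.charpoly G c).map f₂).eval (f₂ c) = 0 := by
    rw [eval_map, Polynomial.eval₂_at_apply, MulSemiringAction.eval_charpoly, map_zero]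
  rw [← h1, MulSemiringAction.charpoly, Polynomial.map_prod, eval_prod,
    Finset.prod_eq_zero_iff] at h2
  obtain ⟨g, -, hg⟩ := h2
  refine ⟨g, ?_⟩
  simpa [sub_eq_zero] using hg

/-- two homomorphisms to a field which agree on the invariants are conjugate -/
theorem exists_smul (f₁ f₂ : C →+* Ω)
    (h : ∀ r : R, f₁ (algebraMap R C r) = f₂ (algebraMap R C r)) :
    ∃ g : G, ∀ c : C, f₂ c = f₁ (g • c) := by
  classical
  cases nonempty_fintype G
  by_contra hcon
  push Not at hcon
  choose c hc using hcon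
  let W : G → Subspace ℚ (G → ℚ) := fun g =>
    LinearMap.ker (∑ h : G, (LinearMap.proj (R := ℚ) (φ := fun _ : G => ℚ) h).smulRight
      (f₂ (c h) - f₁ (g • c h)))
  have hWmem : ∀ (g : G) (q : G → ℚ), q ∈ W g ↔ ∑ h : G, q h • (f₂ (c h) - f₁ (g • c h)) = 0 := by
    intro g q
    simp only [W, LinearMap.mem_ker, LinearMap.sum_apply, LinearMap.smulRight_apply,
      LinearMap.proj_apply]
  have hsmul : ∀ (f : C →+* Ω) (q : ℚ) (x : C), f (q • x) = q • f x := fun f q x =>
    map_rat_smul f q x
  have hg : ∀ (g : G) (q : ℚ) (x : C), g • (q • x) = q • (g • x) := by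
    intro g q x
    exact map_rat_smul (MulSemiringAction.toRingHom G C g) q x
  have hun : ⋃ g, (W g : Set (G → ℚ)) = Set.univ := by
    rw [Set.eq_univ_iff_forall]
    intro q
    obtain ⟨g, hgq⟩ := exists_smul_one (R := R) (G := G) f₁ f₂ h (∑ h : G, q h • c h)
    rw [Set.mem_iUnion]
    refine ⟨g, (hWmem g q).2 ?_⟩
    have e1 : f₂ (∑ h : G, q h • c h) = ∑ h : G, q h • f₂ (c h) := by
      rw [map_sum]
      exact Finset.sum_congr rfl fun i _ => hsmul _ _ _
    have e2 : f₁ (g • ∑ h : G, q h • c h) = ∑ h : G, q h • f₁ (g • c h) := by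
      rw [Finset.smul_sum, map_sum]
      exact Finset.sum_congr rfl fun i _ => by rw [hg, hsmul]
    rw [e1, e2] at hgq
    rw [← sub_eq_zero, ← Finset.sum_sub_distrib] at hgq
    rw [← hgq]
    refine Finset.sum_congr rfl fun i _ => ?_
    simp only [Algebra.smul_def, mul_sub]
  obtain ⟨g, hgt⟩ := Subspace.exists_eq_top_of_iUnion_eq_univ hun
  have h1 : (Pi.single g 1 : G → ℚ) ∈ W g := by rw [hgt]; trivial
  rw [hWmem, Finset.sum_eq_single g] at h1
  · rw [Pi.single_eq_same, one_smul, sub_eq_zero] at h1
    exact hc g h1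
  · intro b _ hb
    rw [Pi.single_eq_of_ne hb, zero_smul]
  · intro hh
    exact absurd (Finset.mem_univ _) hh

end

section

variable {R C G Qb : Type*} [CommRing R] [CommRing C] [Algebra R C] [Group G] [Finite G]
  [MulSemiringAction G C] [Algebra.IsInvariant R C G] [Algebra ℚ C]
  [Field Qb] [Algebra ℚ Qb] [IsAlgClosed Qb] [Algebra.IsAlgebraic ℚ Qb]
  (ψ : C →+* Qb) (y : R →+* ℚ)
  (hψ : ∀ r : R, ψ (algebraMap R C r) = algebraMap ℚ Qb (y r))

include hψ in
/-- an automorphism of the algebraic numbers acts on the values through an element of `G` -/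
theorem exists_smul_aut (τ : Qb ≃ₐ[ℚ] Qb) :
    ∃ g : G, ∀ c : C, τ (ψ c) = ψ (g • c) :=
  exists_smul (R := R) (G := G) ψ ((τ : Qb →+* Qb).comp ψ) (by
    intro r
    rw [RingHom.comp_apply, hψ]
    exact (τ.commutes _).symm)

include hψ in
/-- the roots of the minimal polynomial of a value are values at conjugate elements -/
theorem root_value (c : C) (z : Qb) (hz : aeval z (minpoly ℚ (ψ c)) = 0) :
    ∃ g : G, z = ψ (g • c) := by
  have hac : IsAlgClosure ℚ Qb := ⟨inferInstance, inferInstance⟩
  have hn : Normal ℚ Qb := IsAlgClosure.normal ℚ Qb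
  have h1 : minpoly ℚ z = minpoly ℚ (ψ c) :=
    (minpoly.eq_of_irreducible_of_monic (minpoly.irreducible (Algebra.IsIntegral.isIntegral _)) hz
      (minpoly.monic (Algebra.IsIntegral.isIntegral _))).symm
  obtain ⟨τ, hτ⟩ := (Normal.minpoly_eq_iff_mem_orbit Qb).1 h1
  obtain ⟨g, hg⟩ := exists_smul_aut (G := G) ψ y hψ τ
  exact ⟨g, by rw [← hg]; exact hτ.symm⟩

include hψ in
/-- the Galois groups of values are solvable -/
theorem isSolvable_gal [hG : Group.IsSolvable G] (c : C) :
    Group.IsSolvable (minpoly ℚ (ψ c)).Gal := by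
  classical
  have hac : IsAlgClosure ℚ Qb := ⟨inferInstance, inferInstance⟩
  have hn : Normal ℚ Qb := IsAlgClosure.normal ℚ Qb
  set p := minpoly ℚ (ψ c) with hp
  have hfact : Fact ((p.map (algebraMap ℚ Qb)).Splits) :=
    ⟨IsAlgClosed.splits _⟩
  let H : Subgroup G :=
    { carrier := {g | ∃ τ : Qb ≃ₐ[ℚ] Qb, ∀ x : C, τ (ψ x) = ψ (g • x)}
      mul_mem' := by
        rintro a b ⟨τ, hτ⟩ ⟨τ', hτ'⟩
        refine ⟨τ * τ', fun x => ?_⟩
        rw [AlgEquiv.mul_apply, hτ', hτ, mul_smul]
      one_mem' := ⟨1, fun x => by rw [AlgEquiv.one_apply, one_smul]⟩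
      inv_mem' := by
        rintro a ⟨τ, hτ⟩
        refine ⟨τ⁻¹, fun x => ?_⟩
        have h1 := hτ (a⁻¹ • x)
        rw [smul_inv_smul] at h1
        rw [← h1]
        exact τ.symm_apply_apply _ }
  choose τ hτ using fun g : H => g.2
  have hroots : ∀ (σ σ' : Qb ≃ₐ[ℚ] Qb),
      (∀ x : C, σ (ψ x) = σ' (ψ x)) → Gal.restrict p Qb σ = Gal.restrict p Qb σ' := by
    intro σ σ' h
    apply Gal.galActionHom_injective p Qb
    ext z
    rw [Gal.galActionHom_restrict, Gal.galActionHom_restrict]
    obtain ⟨g, hg⟩ := root_value (G := G) ψ y hψ c z (mem_rootSet.1 z.2).2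
    rw [hg]
    exact h _
  let F : H →* p.Gal :=
    { toFun := fun g => Gal.restrict p Qb (τ g)
      map_one' := by
        rw [← map_one (Gal.restrict p Qb)]
        apply hroots
        intro x
        rw [hτ, AlgEquiv.one_apply]
        change ψ ((1 : G) • x) = _
        rw [one_smul]
      map_mul' := by
        intro a b
        rw [← map_mul]
        apply hroots
        intro x
        rw [hτ, AlgEquiv.mul_apply, hτ, hτ, ← mul_smul]
        rfl }
  have hF : Function.Surjective F := by
    intro σ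
    obtain ⟨ρ, rfl⟩ := Gal.restrict_surjective p Qb σ
    obtain ⟨g, hg⟩ := exists_smul_aut (G := G) ψ y hψ ρ
    refine ⟨⟨g, ρ, hg⟩, ?_⟩
    apply hroots
    intro x
    rw [hτ, hg]
  exact Group.isSolvable_of_surjective hF

include hψ G in
/-- if there is a homomorphism to a field `k` over the same point, then the minimal polynomials of
the values split over `k` -/
theorem splits_of_hom {k : Type*} [Field k] [Algebra ℚ k] (ψk : C →+* k)
    (hk : ∀ r : R, ψk (algebraMap R C r) = algebraMap ℚ k (y r)) (c : C) :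
    ((minpoly ℚ (ψ c)).map (algebraMap ℚ k)).Splits := by
  classical
  have hcz : CharZero k := algebraRat.charZero k
  have hcz' : CharZero (AlgebraicClosure k) := algebraRat.charZero _
  have htf : Module.IsTorsionFree ℚ (AlgebraicClosure k) :=
    Module.IsTorsionFree.of_smul_eq_zero (fun r m h => by
      rw [Algebra.smul_def, mul_eq_zero] at h
      rcases h with h | h
      · exact Or.inl ((map_eq_zero _).1 h)
      · exact Or.inr h)
  let ι : Qb →ₐ[ℚ] AlgebraicClosure k := IsAlgClosed.lift
  obtain ⟨g, hg⟩ := exists_smul (R := R) (G := G) (ι.toRingHom.comp ψ)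
    ((algebraMap k (AlgebraicClosure k)).comp ψk) (by
      intro r
      change ι (ψ _) = algebraMap k _ (ψk _)
      rw [hψ, hk, AlgHom.commutes, IsScalarTower.algebraMap_apply ℚ k (AlgebraicClosure k)])
  have hval : ∀ x : C, ∃ a : k, algebraMap k (AlgebraicClosure k) a = ι (ψ x) := by
    intro x
    refine ⟨ψk (g⁻¹ • x), ?_⟩
    have h1 := hg (g⁻¹ • x)
    rw [smul_inv_smul] at h1
    exact h1
  -- the minimal polynomial over the algebraic closure of `k`
  set p := minpoly ℚ (ψ c) with hp
  have hmon : p.Monic := minpoly.monic (Algebra.IsIntegral.isIntegral _)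
  have hs1 : (p.map (algebraMap ℚ Qb)).Splits := IsAlgClosed.splits _
  obtain ⟨m, hm⟩ : ∃ m : Multiset k, (p.map (algebraMap ℚ Qb)).roots.map ι =
      m.map (algebraMap k (AlgebraicClosure k)) := by
    have h2 : ∀ z ∈ (p.map (algebraMap ℚ Qb)).roots.map ι, ∃ a : k,
        algebraMap k (AlgebraicClosure k) a = z := by
      intro z hz
      obtain ⟨w, hw, rfl⟩ := Multiset.mem_map.1 hz
      have h3 : aeval w p = 0 := by
        have h4 := (mem_roots'.1 hw).2
        rwa [IsRoot.def, eval_map_algebraMap] at h4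
      obtain ⟨g', hg'⟩ := root_value (G := G) ψ y hψ c w h3
      obtain ⟨a, ha⟩ := hval (g' • c)
      exact ⟨a, by rw [ha, hg']⟩
    choose! a ha using h2
    refine ⟨((p.map (algebraMap ℚ Qb)).roots.map ι).map a, ?_⟩
    rw [Multiset.map_map]
    conv_lhs => rw [← Multiset.map_id ((p.map (algebraMap ℚ Qb)).roots.map ι)]
    exact Multiset.map_congr rfl fun z hz => (ha z hz).symm
  have h5 : p.map (algebraMap ℚ k) = (m.map (fun a => X - Polynomial.C a)).prod := by
    apply Polynomial.map_injective (algebraMap k (AlgebraicClosure k))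
      (algebraMap k (AlgebraicClosure k)).injective
    rw [Polynomial.map_map, ← IsScalarTower.algebraMap_eq, Polynomial.map_multiset_prod,
      Multiset.map_map]
    have h6 : p.map (algebraMap ℚ (AlgebraicClosure k)) =
        (p.map (algebraMap ℚ Qb)).map (ι : Qb →+* AlgebraicClosure k) := by
      rw [Polynomial.map_map]
      congr 1
      exact ι.comp_algebraMap.symm
    have h7 : p.map (algebraMap ℚ Qb) =
        ((p.map (algebraMap ℚ Qb)).roots.map (fun a => X - Polynomial.C a)).prod := by
      conv_lhs => rw [hs1.eq_prod_roots_of_monic (hmon.map _)]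
    rw [h6, h7, Polynomial.map_multiset_prod, Multiset.map_map]
    have h8 : (Multiset.map (Polynomial.map (ι : Qb →+* AlgebraicClosure k) ∘ fun a => X - Polynomial.C a)
        (p.map (algebraMap ℚ Qb)).roots) =
        ((p.map (algebraMap ℚ Qb)).roots.map ι).map (fun a => X - Polynomial.C a) := by
      rw [Multiset.map_map]
      refine Multiset.map_congr rfl fun z _ => ?_
      simp
    have h9 : (Multiset.map (Polynomial.map (algebraMap k (AlgebraicClosure k)) ∘ fun a => X - Polynomial.C a)
        m) = (m.map (algebraMap k (AlgebraicClosure k))).map (fun a => X - Polynomial.C a) := by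
      rw [Multiset.map_map]
      refine Multiset.map_congr rfl fun z _ => ?_
      simp
    rw [h8, h9, hm]
  rw [h5]
  exact Splits.multisetProd (fun q hq => by
    obtain ⟨a, -, rfl⟩ := Multiset.mem_map.1 hq
    exact Splits.X_sub_C a)

end

end Run7.h805
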