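import Mathlib

/-!
# Primitive elements with denominators, and extension of homomorphisms (helper805)
-/

set_option autoImplicit false

namespace Run7.h805

open Polynomial

/-- extension of a homomorphism from `R` to `C` through a root of the minimal polynomial -/
theorem ext_hom {R C k : Type*} [CommRing R] [CommRing C] [Algebra R C] [Field k] (θ : C)
    (m : R[X]) (hm : ∀ q : R[X], aeval θ q = 0 → m ∣ q) (d : R)
    (hd : ∀ c : C, ∃ q : R[X], algebraMap R C d * c = aeval θ q) (ρ : R →+* k) (x : k)
    (hx : eval₂ ρ x m = 0) (hρd : ρ d ≠ 0) :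
    ∃ ψ : C →+* k, (∀ r : R, ψ (algebraMap R C r) = ρ r) := by
  choose q hq using hd
  have key : ∀ q₁ q₂ : R[X], aeval θ q₁ = aeval θ q₂ → eval₂ ρ x q₁ = eval₂ ρ x q₂ := by
    intro q₁ q₂ h
    obtain ⟨u, hu⟩ := hm (q₁ - q₂) (by rw [map_sub, h, sub_self])
    rw [← sub_eq_zero, ← eval₂_sub, hu, eval₂_mul, hx, zero_mul]
  have keyC : ∀ (q₁ : R[X]) (r : R), aeval θ q₁ = algebraMap R C r → eval₂ ρ x q₁ = ρ r := by
    intro q₁ r h
    rw [key q₁ (Polynomial.C r) (by rw [h, aeval_C]), eval₂_C]
  refine ⟨{ toFun := fun c => eval₂ ρ x (q c) / ρ d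
            map_one' := ?_
            map_mul' := ?_
            map_zero' := ?_
            map_add' := ?_ }, ?_⟩
  · rw [keyC (q 1) d (by rw [← hq, mul_one]), div_self hρd]
  · intro a b
    have h1 : eval₂ ρ x (q (a * b) * Polynomial.C d) = eval₂ ρ x (q a * q b) := by
      apply key
      rw [map_mul, map_mul, ← hq, ← hq, ← hq, aeval_C]
      ring
    rw [eval₂_mul, eval₂_mul, eval₂_C] at h1
    rw [div_mul_div_comm, div_eq_div_iff hρd (mul_ne_zero hρd hρd), ← mul_assoc, h1]
  · rw [keyC (q 0) 0 (by rw [← hq, mul_zero, map_zero]), map_zero, zero_div]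
  · intro a b
    have h1 : eval₂ ρ x (q (a + b)) = eval₂ ρ x (q a + q b) := by
      apply key
      rw [map_add, ← hq, ← hq, ← hq]
      ring
    rw [h1, eval₂_add, add_div]
  · intro r
    change eval₂ ρ x (q (algebraMap R C r)) / ρ d = ρ r
    rw [keyC (q (algebraMap R C r)) (d * r) (by rw [← hq, map_mul]), map_mul,
      mul_div_cancel_left₀ _ hρd]

theorem exists_prim (R K E : Type*) [CommRing R] [IsDomain R] [IsIntegrallyClosed R]
    [IsNoetherianRing R] [Field K] [Algebra R K] [IsFractionRing R K] [Field E] [Algebra K E]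
    [Algebra R E] [IsScalarTower R K E] [FiniteDimensional K E] [Algebra.IsSeparable K E] :
    ∃ (θ : integralClosure R E) (m : R[X]) (d : R), m.Monic ∧ 0 < m.natDegree ∧ d ≠ 0 ∧
      aeval θ m = 0 ∧ aeval θ (derivative m) ≠ 0 ∧
      (∀ q : R[X], aeval θ q = 0 → m ∣ q) ∧
      ∀ c : integralClosure R E, ∃ q : R[X],
        algebraMap R (integralClosure R E) d * c = aeval θ q := by
  classical
  have halg : Algebra.IsAlgebraic R E := (IsFractionRing.comap_isAlgebraic_iff (K := K)).2 inferInstance
  have htf : Module.IsTorsionFree R E := Module.IsTorsionFree.of_smul_eq_zero (fun r e h => by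
    rw [Algebra.smul_def, mul_eq_zero] at h
    refine h.imp (fun h => ?_) id
    rw [IsScalarTower.algebraMap_apply R K E, map_eq_zero] at h
    exact (IsFractionRing.injective R K) (by rw [h, map_zero]))
  obtain ⟨α, hα⟩ := Field.exists_primitive_element K E
  obtain ⟨b, hb0, hb⟩ := (Algebra.IsAlgebraic.isAlgebraic (R := R) α).exists_integral_multiple
  let θ : integralClosure R E := ⟨b • α, hb⟩
  have hbK : algebraMap R K b ≠ 0 := fun h => hb0 ((IsFractionRing.injective R K) (by
    rw [h, map_zero]))
  have hθ : IntermediateField.adjoin K {(θ : E)} = ⊤ := by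
    rw [eq_top_iff, ← hα, IntermediateField.adjoin_simple_le_iff]
    have h1 : α = algebraMap K E (algebraMap R K b)⁻¹ * (θ : E) := by
      change α = _ * (b • α)
      rw [Algebra.smul_def, IsScalarTower.algebraMap_apply R K E, ← mul_assoc, ← map_mul,
        inv_mul_cancel₀ hbK, map_one, one_mul]
    rw [h1]
    exact mul_mem (IntermediateField.algebraMap_mem _ _)
      (IntermediateField.mem_adjoin_simple_self K (θ : E))
  have hint : IsIntegral R θ := integralClosure.isIntegral θ
  have htf' : Module.IsTorsionFree R (integralClosure R E) := inferInstance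
  have hmap : minpoly K (θ : E) = (minpoly R θ).map (algebraMap R K) :=
    minpoly.isIntegrallyClosed_eq_field_fractions K E hint
  have hfin : Module.Finite R (integralClosure R E) :=
    IsIntegralClosure.finite R K E (integralClosure R E)
  -- denominators
  have hden : ∀ e : E, ∃ d : R, d ≠ 0 ∧ ∃ q : R[X], algebraMap R E d * e = aeval (θ : E) q := by
    intro e
    have h1 : e ∈ IntermediateField.adjoin K {(θ : E)} := by rw [hθ]; trivial
    rw [← IntermediateField.mem_toSubalgebra,
      IntermediateField.adjoin_simple_toSubalgebra_of_isAlgebraic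
      (Algebra.IsAlgebraic.isAlgebraic _), Algebra.adjoin_singleton_eq_range_aeval] at h1
    obtain ⟨Q, hQ⟩ := h1
    obtain ⟨d, hdM, hd⟩ := IsLocalization.integerNormalization_spec (nonZeroDivisors R) Q
    refine ⟨d, nonZeroDivisors.ne_zero hdM,
      IsLocalization.integerNormalization (nonZeroDivisors R) Q, ?_⟩
    rw [← hQ, ← aeval_map_algebraMap K, hd]
    change _ = aeval (θ : E) ((d : R) • Q)
    rw [← algebraMap_smul K d Q, map_smul, Algebra.smul_def,
      ← IsScalarTower.algebraMap_apply R K E]
    rfl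
  have hinj : Function.Injective (algebraMap (integralClosure R E) E) := Subtype.val_injective
  have hden' : ∀ c : integralClosure R E, ∃ d : R, d ≠ 0 ∧ ∃ q : R[X],
      algebraMap R (integralClosure R E) d * c = aeval θ q := by
    intro c
    obtain ⟨d, hd, q, hq⟩ := hden c
    refine ⟨d, hd, q, hinj ?_⟩
    rw [map_mul, ← aeval_algebraMap_apply]
    exact hq
  obtain ⟨S, hS⟩ := hfin.fg_top
  choose dd hdd0 qq hqq using hden'
  let D : R := ∏ c ∈ S, dd c
  have hD0 : D ≠ 0 := Finset.prod_ne_zero_iff.2 fun c _ => hdd0 c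
  let N : Submodule R (integralClosure R E) :=
    { carrier := {c | ∃ q : R[X], algebraMap R (integralClosure R E) D * c = aeval θ q}
      add_mem' := by
        rintro a b ⟨q, hq⟩ ⟨q', hq'⟩
        exact ⟨q + q', by rw [mul_add, hq, hq', map_add]⟩
      zero_mem' := ⟨0, by rw [mul_zero, map_zero]⟩
      smul_mem' := by
        rintro r a ⟨q, hq⟩
        exact ⟨C r * q, by rw [map_mul, aeval_C, ← hq, Algebra.smul_def]; ring⟩ }
  have hN : (⊤ : Submodule R (integralClosure R E)) ≤ N := by
    rw [← hS, Submodule.span_le]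
    intro c hc
    refine ⟨C (∏ c' ∈ S.erase c, dd c') * qq c, ?_⟩
    rw [map_mul, aeval_C, ← hqq c, ← mul_assoc, ← map_mul]
    congr 2
    exact (Finset.prod_erase_mul S dd hc).symm
  refine ⟨θ, minpoly R θ, D, minpoly.monic hint, minpoly.natDegree_pos hint, hD0,
    minpoly.aeval R θ, ?_, fun q hq => minpoly.isIntegrallyClosed_dvd hint hq,
    fun c => hN (Submodule.mem_top : c ∈ ⊤)⟩
  intro h0
  have hsep : (minpoly K (θ : E)).Separable := Algebra.IsSeparable.isSeparable K (θ : E)
  have h1 := hsep.aeval_derivative_ne_zero (minpoly.aeval K (θ : E))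
  apply h1
  rw [hmap, derivative_map, aeval_map_algebraMap]
  have h2 := congrArg (algebraMap (integralClosure R E) E) h0
  rw [← aeval_algebraMap_apply, map_zero] at h2
  exact h2

end Run7.h805
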