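import Mathlib
import Pool.Agent.Run7.h805.WA
import Pool.Agent.Run7.h805.RP
import Pool.Agent.Run7.h805.Frac
import Pool.Agent.Run7.h805.Inv
import Pool.Agent.Run7.h805.Prim

/-!
# Solvable Galois covers of affine space: from local points to points over totally `S`-adic
solvable numbers (helper805)
-/

set_option autoImplicit false

namespace Run7.h805

open Polynomial Topology Filter

/-- the local step: a local point of the function field gives an open set of parameters over which
the polynomial `m` has a root -/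
theorem local_root {n : ℕ} {E : Type} [Field E] [Algebra ℚ E] [Algebra (MvPolynomial (Fin n) ℚ) E]
    [IsScalarTower ℚ (MvPolynomial (Fin n) ℚ) E]
    (θ : E) (m : (MvPolynomial (Fin n) ℚ)[X]) (h0 : aeval θ m = 0)
    (h1 : aeval θ (derivative m) ≠ 0) (D : MvPolynomial (Fin n) ℚ)
    (hD : algebraMap (MvPolynomial (Fin n) ℚ) E D ≠ 0)
    {k : Type} [NontriviallyNormedField k] [CompleteSpace k] [Algebra ℚ k] (hk : LocPt E k) :
    ∃ y₀ : Fin n → k, MvPolynomial.aeval y₀ D ≠ 0 ∧
      ∀ᶠ y in 𝓝 y₀, ∃ x : k, (m.map (MvPolynomial.aeval y : MvPolynomial (Fin n) ℚ →ₐ[ℚ] k).toRingHom).eval x = 0 := by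
  classical
  let R := MvPolynomial (Fin n) ℚ
  let s : Finset E := (Finset.univ.image fun i : Fin n => algebraMap R E (MvPolynomial.X i)) ∪
    {θ, (aeval θ (derivative m))⁻¹, (algebraMap R E D)⁻¹}
  obtain ⟨φ⟩ := hk s
  let A := Algebra.adjoin ℚ (s : Set E)
  have hX : ∀ i : Fin n, algebraMap R E (MvPolynomial.X i) ∈ A := fun i =>
    Algebra.subset_adjoin (by simp [s])
  have hθ : θ ∈ A := Algebra.subset_adjoin (by simp [s])
  have hm' : (aeval θ (derivative m))⁻¹ ∈ A := Algebra.subset_adjoin (by simp [s])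
  have hD' : (algebraMap R E D)⁻¹ ∈ A := Algebra.subset_adjoin (by simp [s])
  let j : R →ₐ[ℚ] A := MvPolynomial.aeval fun i => ⟨algebraMap R E (MvPolynomial.X i), hX i⟩
  have hj : ∀ q : R, ((j q : A) : E) = algebraMap R E q := by
    intro q
    have h2 : A.val.comp j = IsScalarTower.toAlgHom ℚ R E := by
      ext i
      simp [j]
      rfl
    exact DFunLike.congr_fun h2 q
  let y₀ : Fin n → k := fun i => φ (j (MvPolynomial.X i))
  have hev : ∀ q : R, MvPolynomial.aeval y₀ q = φ (j q) := by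
    intro q
    have h2 : (MvPolynomial.aeval y₀ : R →ₐ[ℚ] k) = φ.comp j := by
      ext i
      simp [y₀]
    exact DFunLike.congr_fun h2 q
  let x₀ : k := φ ⟨θ, hθ⟩
  have hval : ∀ q : R[X], ((eval₂ j.toRingHom (⟨θ, hθ⟩ : A) q : A) : E) = aeval θ q := by
    intro q
    have h2 := Polynomial.hom_eval₂ q j.toRingHom A.val.toRingHom (⟨θ, hθ⟩ : A)
    have h3 : A.val.toRingHom.comp j.toRingHom = algebraMap R E := RingHom.ext hj
    rw [h3] at h2
    exact h2
  have hev2 : ∀ q : R[X], (q.map (MvPolynomial.aeval y₀ : R →ₐ[ℚ] k).toRingHom).eval x₀ =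
      φ (eval₂ j.toRingHom (⟨θ, hθ⟩ : A) q) := by
    intro q
    have h2 := Polynomial.hom_eval₂ q j.toRingHom φ.toRingHom (⟨θ, hθ⟩ : A)
    have h3 : φ.toRingHom.comp j.toRingHom = (MvPolynomial.aeval y₀ : R →ₐ[ℚ] k).toRingHom :=
      RingHom.ext fun q => (hev q).symm
    rw [h3] at h2
    rw [eval_map]
    exact h2.symm
  have hmap : ∀ (y : Fin n → k) (q : R[X]), (q.map (MvPolynomial.map (algebraMap ℚ k))).map
      (MvPolynomial.eval y) = q.map (MvPolynomial.aeval y : R →ₐ[ℚ] k).toRingHom := by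
    intro y q
    rw [Polynomial.map_map]
    congr 1
    ext c
    · simp
    · simp
  have e0 : (m.map (MvPolynomial.aeval y₀ : R →ₐ[ℚ] k).toRingHom).eval x₀ = 0 := by
    rw [hev2]
    have h2 : eval₂ j.toRingHom (⟨θ, hθ⟩ : A) m = 0 := Subtype.ext (by rw [hval, h0]; rfl)
    rw [h2, map_zero]
  have e1 : ((m.map (MvPolynomial.aeval y₀ : R →ₐ[ℚ] k).toRingHom).derivative).eval x₀ ≠ 0 := by
    rw [derivative_map, hev2]
    intro h2
    have h3 : eval₂ j.toRingHom (⟨θ, hθ⟩ : A) (derivative m) * ⟨_, hm'⟩ = 1 := by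
      apply Subtype.ext
      change ((eval₂ j.toRingHom (⟨θ, hθ⟩ : A) (derivative m) : A) : E) * _ = 1
      rw [hval, mul_inv_cancel₀ h1]
    have h4 := congrArg φ h3
    rw [map_mul, h2, zero_mul, map_one] at h4
    exact zero_ne_one h4
  refine ⟨y₀, ?_, ?_⟩
  · rw [hev]
    intro h2
    have h3 : j D * ⟨_, hD'⟩ = 1 := by
      apply Subtype.ext
      change ((j D : A) : E) * _ = 1
      rw [hj, mul_inv_cancel₀ hD]
    have h4 := congrArg φ h3
    rw [map_mul, h2, zero_mul, map_one] at h4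
    exact zero_ne_one h4
  · have h5 := root_persist (m.map (MvPolynomial.map (algebraMap ℚ k))) y₀ x₀
      (by rw [hmap]; exact e0) (by rw [hmap]; exact e1) Set.univ univ_mem
    filter_upwards [h5] with y hy
    obtain ⟨x, -, hx⟩ := hy
    rw [hmap] at hx
    exact ⟨x, hx⟩

/-- **From local points to totally `S`-adic solvable points**, for function fields which are finite
Galois extensions of `ℚ(t₁, …, tₙ)` with solvable group -/
theorem core {n : ℕ} {E : Type} [Field E] [Algebra ℚ E]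
    [Algebra (FractionRing (MvPolynomial (Fin n) ℚ)) E]
    [FiniteDimensional (FractionRing (MvPolynomial (Fin n) ℚ)) E]
    [IsGalois (FractionRing (MvPolynomial (Fin n) ℚ)) E]
    [Group.IsSolvable (E ≃ₐ[FractionRing (MvPolynomial (Fin n) ℚ)] E)]
    {Qb : Type} [Field Qb] [Algebra ℚ Qb] [IsAlgClosed Qb] [Algebra.IsAlgebraic ℚ Qb]
    (T : Finset Nat.Primes) (r : Bool) (L : IntermediateField ℚ Qb)
    (hL : ∀ x : Qb, (∀ p ∈ T, ((minpoly ℚ x).map (algebraMap ℚ ℚ_[(p : ℕ)])).Splits) →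
      (r = true → ((minpoly ℚ x).map (algebraMap ℚ ℝ)).Splits) →
      Group.IsSolvable (minpoly ℚ x).Gal → x ∈ L)
    (hp : ∀ p ∈ T, LocPt E ℚ_[(p : ℕ)]) (hr : r = true → LocPt E ℝ) : LocPt E L := by
  classical
  let R := MvPolynomial (Fin n) ℚ
  let K := FractionRing R
  let algRE : Algebra R E := ((algebraMap K E).comp (algebraMap R K)).toAlgebra
  have tow : IsScalarTower R K E := IsScalarTower.of_algebraMap_eq' rfl
  have towQ : IsScalarTower ℚ R E := IsScalarTower.of_algebraMap_eq' (RingHom.ext_rat _ _)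
  let C := integralClosure R E
  let G := E ≃ₐ[K] E
  have hfr : IsFractionRing C E := integralClosure.isFractionRing_of_finite_extension K E
  let act : MulSemiringAction G C := IsIntegralClosure.MulSemiringAction R K E C
  have inv : Algebra.IsInvariant R C G := Algebra.isInvariant_of_isGalois R K E C
  obtain ⟨θ, m, d, hmon, hdeg, hd0, hm0, hm1, hdvd, hden⟩ := exists_prim R K E
  intro s
  have hRK : Function.Injective (algebraMap R K) := IsFractionRing.injective R K
  have hRE : Function.Injective (algebraMap R E) := (algebraMap K E).injective.comp hRK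
  -- denominators of the elements of `s`
  have halg : Algebra.IsAlgebraic R E := (IsFractionRing.comap_isAlgebraic_iff (K := K)).2 inferInstance
  have hb : ∀ e : E, ∃ b : R, b ≠ 0 ∧ ∃ c : C, algebraMap C E c = algebraMap R E b * e := by
    intro e
    obtain ⟨b, hb0, hb⟩ := (Algebra.IsAlgebraic.isAlgebraic (R := R) e).exists_integral_multiple
    exact ⟨b, hb0, ⟨b • e, hb⟩, by rw [← Algebra.smul_def]; rfl⟩
  choose b hb0 c hc using hb
  let B : R := ∏ e ∈ s, b e
  have hB0 : B ≠ 0 := Finset.prod_ne_zero_iff.2 fun e _ => hb0 e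
  let D : R := d * B
  have hD0 : D ≠ 0 := mul_ne_zero hd0 hB0
  have hDE : algebraMap R E D ≠ 0 := fun h => hD0 (hRE (by rw [h, map_zero]))
  have hθ0 : aeval (θ : E) m = 0 := by
    have h := congrArg (algebraMap C E) hm0
    rw [← aeval_algebraMap_apply, map_zero] at h
    exact h
  have hθ1 : aeval (θ : E) (derivative m) ≠ 0 := by
    intro h
    apply hm1
    have hinj : Function.Injective (algebraMap C E) := Subtype.val_injective
    apply hinj
    rw [← aeval_algebraMap_apply, map_zero]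
    exact h
  -- local parameters
  have hloc : ∀ p : Nat.Primes, ∃ y₀ : Fin n → ℚ_[(p : ℕ)], p ∈ T → ∀ᶠ y in 𝓝 y₀,
      ∃ x : ℚ_[(p : ℕ)], (m.map (MvPolynomial.aeval y : R →ₐ[ℚ] ℚ_[(p : ℕ)]).toRingHom).eval x = 0 := by
    intro p
    by_cases hpT : p ∈ T
    · obtain ⟨y₀, -, h⟩ := local_root (θ : E) m hθ0 hθ1 D hDE (hp p hpT)
      exact ⟨y₀, fun _ => h⟩
    · exact ⟨0, fun h => absurd h hpT⟩
  choose yp hyp using hloc
  have hreal : ∃ y₀ : Fin n → ℝ, MvPolynomial.aeval y₀ D ≠ 0 ∧ (r = true → ∀ᶠ y in 𝓝 y₀,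
      ∃ x : ℝ, (m.map (MvPolynomial.aeval y : R →ₐ[ℚ] ℝ).toRingHom).eval x = 0) := by
    by_cases hrr : r = true
    · obtain ⟨y₀, h1, h2⟩ := local_root (θ : E) m hθ0 hθ1 D hDE (hr hrr)
      exact ⟨y₀, h1, fun _ => h2⟩
    · by_contra hcon
      push Not at hcon
      apply hD0
      have h3 : MvPolynomial.map (algebraMap ℚ ℝ) D = 0 := by
        apply MvPolynomial.funext
        intro y
        rw [map_zero, MvPolynomial.eval_map, ← MvPolynomial.aeval_def]
        by_contra h4
        exact hrr (hcon y h4).1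
      exact MvPolynomial.map_injective _ (algebraMap ℚ ℝ).injective (by rw [h3, map_zero])
  obtain ⟨yr, hyr1, hyr2⟩ := hreal
  have hcontD : ∀ᶠ y in 𝓝 yr, MvPolynomial.aeval y D ≠ 0 := by
    have h1 : Continuous fun y : Fin n → ℝ => MvPolynomial.aeval y D := by
      have h2 : (fun y : Fin n → ℝ => MvPolynomial.aeval y D) = fun y =>
          MvPolynomial.eval y (MvPolynomial.map (algebraMap ℚ ℝ) D) := by
        funext y
        rw [MvPolynomial.eval_map, ← MvPolynomial.aeval_def]
      rw [h2]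
      exact MvPolynomial.continuous_eval _
    exact h1.continuousAt.eventually_ne hyr1
  -- weak approximation
  obtain ⟨u, hu1, hu2⟩ := approx_vec T yp yr
    (fun p => {y | ∃ x : ℚ_[(p : ℕ)],
      (m.map (MvPolynomial.aeval y : R →ₐ[ℚ] ℚ_[(p : ℕ)]).toRingHom).eval x = 0})
    (fun p hpT => hyp p hpT)
    {y | MvPolynomial.aeval y D ≠ 0 ∧ (r = true →
      ∃ x : ℝ, (m.map (MvPolynomial.aeval y : R →ₐ[ℚ] ℝ).toRingHom).eval x = 0)}
    (by
      by_cases hrr : r = true
      · filter_upwards [hcontD, hyr2 hrr] with y h1 h2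
        exact ⟨h1, fun _ => h2⟩
      · filter_upwards [hcontD] with y h1
        exact ⟨h1, fun h => absurd h hrr⟩)
  let ρ : R →+* ℚ := (MvPolynomial.aeval u : R →ₐ[ℚ] ℚ).toRingHom
  have hρk : ∀ {k : Type} [Field k] [Algebra ℚ k] (v : Fin n → k),
      (∀ i, v i = algebraMap ℚ k (u i)) →
      (MvPolynomial.aeval v : R →ₐ[ℚ] k).toRingHom = (algebraMap ℚ k).comp ρ := by
    intro k _ _ v hv
    have h1 : (MvPolynomial.aeval v : R →ₐ[ℚ] k) =
        (Algebra.ofId ℚ k).comp (MvPolynomial.aeval u : R →ₐ[ℚ] ℚ) := by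
      ext i
      rw [AlgHom.comp_apply, MvPolynomial.aeval_X, MvPolynomial.aeval_X, hv]
      rfl
    rw [h1]
    rfl
  have hρD : ρ D ≠ 0 := by
    intro h
    apply hu2.1
    have h1 := hρk (k := ℝ) (fun i => (u i : ℝ)) (fun i => rfl)
    have h2 := congrArg (fun f : R →+* ℝ => f D) h1
    simp only [RingHom.comp_apply, h, map_zero] at h2
    exact h2
  have hρd : ρ d ≠ 0 := by
    intro h
    apply hρD
    simp only [D, map_mul, h, zero_mul]
  have hρB : ρ B ≠ 0 := by
    intro h
    apply hρD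
    simp only [D, map_mul, h, mul_zero]
  have hext : ∀ {k : Type} [Field k] [Algebra ℚ k] (x : k), eval₂ ((algebraMap ℚ k).comp ρ) x m = 0 →
      ∃ ψ : C →+* k, ∀ r : R, ψ (algebraMap R C r) = algebraMap ℚ k (ρ r) := by
    intro k _ _ x hx
    exact ext_hom θ m hdvd d hden ((algebraMap ℚ k).comp ρ) x hx (by
      rw [RingHom.comp_apply]
      exact (_root_.map_ne_zero _).2 hρd)
  -- the point over the algebraic numbers
  obtain ⟨x, hx⟩ : ∃ x : Qb, eval₂ ((algebraMap ℚ Qb).comp ρ) x m = 0 := by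
    have h1 : (m.map ((algebraMap ℚ Qb).comp ρ)).degree ≠ 0 := by
      rw [hmon.degree_map]
      intro h
      rw [natDegree_eq_zero_iff_degree_le_zero.2 h.le] at hdeg
      exact lt_irrefl _ hdeg
    obtain ⟨x, hx⟩ := IsAlgClosed.exists_root _ h1
    exact ⟨x, by rw [← eval_map]; exact hx⟩
  obtain ⟨ψ, hψ⟩ := hext x hx
  have hmem : ∀ a : C, ψ a ∈ L := by
    intro a
    refine hL _ ?_ ?_ ?_
    · intro p hpT
      obtain ⟨xp, hxp⟩ := hu1 p hpT
      rw [hρk (k := ℚ_[(p : ℕ)]) (fun i => (u i : ℚ_[(p : ℕ)])) (fun i => rfl), eval_map] at hxp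
      obtain ⟨ψp, hψp⟩ := hext xp hxp
      exact splits_of_hom (G := G) ψ ρ hψ ψp hψp a
    · intro hrr
      obtain ⟨xp, hxp⟩ := hu2.2 hrr
      rw [hρk (k := ℝ) (fun i => (u i : ℝ)) (fun i => rfl), eval_map] at hxp
      obtain ⟨ψp, hψp⟩ := hext xp hxp
      exact splits_of_hom (G := G) ψ ρ hψ ψp hψp a
    · exact isSolvable_gal (G := G) ψ ρ hψ a
  let ψL : C →+* L := ψ.codRestrict L hmem
  obtain ⟨φ, -⟩ := exists_hom (A := C) (E := E) (k := L) Subtype.val_injective
    (RingHom.toRatAlgHom ψL) (algebraMap R C B) (by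
      intro h
      apply hρB
      have h1 : ψ (algebraMap R C B) = 0 := congrArg Subtype.val h
      rw [hψ] at h1
      exact (map_eq_zero _).1 h1) (s : Set E) (by
      intro e he
      refine ⟨algebraMap R C (∏ e' ∈ s.erase e, b e') * c e, ?_⟩
      rw [map_mul, hc, ← mul_assoc, ← IsScalarTower.algebraMap_apply R C E,
        ← IsScalarTower.algebraMap_apply R C E, ← map_mul]
      congr 2
      exact Finset.prod_erase_mul s b he)
  exact ⟨φ⟩

end Run7.h805
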